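import Mathlib
import Pool.Agent.Helper450.WZMain

/-!
# The exact value of `τ^(ℤ₃ × ℤ₃ₖ, 3k)` for every `k`

We determine, for every positive integer `k`, the largest size of a subset of `ℤ₃ × ℤ₃ₖ` in which
no `3k` distinct elements sum to `0`. For `k = 1` it is `4`. For `k ≥ 2` it is `3k + 2` if `k` is
exceptional (`k = 8`, or `k = 2·3ᵇ`, or `k = 4·3ᵇ`, or `k` is twice a prime, or all prime factors
of `k` are `≡ 1 (mod 3)`), and `3k + 3` in all other cases.

Upper bound: let `|A| = 3k + 3`, `x = σ(A)`; we need three distinct elements of `A` with sum `x`.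
Choose `π : G → ℤ₃` onto with `π x = 0`. Kneser's theorem, applied to the three (disjoint) classes
of `A` under `π`, gives a subgroup `H ≤ ker π` with `|A + H| = 3k + |H|`, so that `A` has only
`|H| - 3` holes in `A + H`; hence in `G/H` only the trivial solutions `3q = x` are possible. The two
cases (no solution, or some trivial solution) are then settled by Kneser's theorem again, by a
Scherk type bound, and by the sum condition `x = σ(A)`.
-/

open Finset

namespace Pool.Agent.Results.MP_e67b39_co.ExactValue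

/-! ### Definitions used in the statement -/

/-- `A` is weakly zero-`h`-sum-free: no `h` distinct elements of `A` sum to `0`. -/
def WeaklyZeroSumFree {G : Type*} [AddCommGroup G] (h : ℕ) (A : Finset G) : Prop :=
  ∀ B ⊆ A, B.card = h → ∑ b ∈ B, b ≠ 0

/-- The set of the sizes of the weakly zero-`3k`-sum-free subsets of `ℤ₃ × ℤ₃ₖ`. Its greatest
element is `τ^(ℤ₃ × ℤ₃ₖ, 3k)`. -/
def sizes (k : ℕ) : Set ℕ :=
  {n | ∃ A : Finset (ZMod 3 × ZMod (3 * k)), A.card = n ∧ WeaklyZeroSumFree (3 * k) A}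

/-- The exceptional values of `k`. -/
def Exceptional (k : ℕ) : Prop :=
  k = 8 ∨ (∃ b : ℕ, k = 2 * 3 ^ b) ∨ (∃ b : ℕ, k = 4 * 3 ^ b) ∨
    (∃ p : ℕ, p.Prime ∧ k = 2 * p) ∨ (∀ p : ℕ, p.Prime → p ∣ k → p % 3 = 1)

/-! ### Proof -/

theorem WeaklyZeroSumFree.mono {G : Type*} [AddCommGroup G] {h : ℕ} {A B : Finset G}
    (hA : WeaklyZeroSumFree h A) (hBA : B ⊆ A) : WeaklyZeroSumFree h B :=
  fun C hC hc => hA C (hC.trans hBA) hc

theorem free_of_two {G : Type*} [AddCommGroup G] [DecidableEq G] {h : ℕ} {A : Finset G}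
    (hc : A.card = h + 2) (hA : ∀ a ∈ A, ∀ b ∈ A, a ≠ b → a + b ≠ ∑ x ∈ A, x) :
    WeaklyZeroSumFree h A := by
  intro B hB hBc h0
  have h1 := Finset.card_sdiff_add_card_eq_card hB
  obtain ⟨a, b, hab, he⟩ := Finset.card_eq_two.mp (by omega : (A \ B).card = 2)
  have hm : ∀ z ∈ ({a, b} : Finset G), z ∈ A := by
    intro z hz
    rw [← he, Finset.mem_sdiff] at hz
    exact hz.1
  apply hA a (hm a (by simp)) b (hm b (by simp)) hab
  rw [← Finset.sum_sdiff hB, h0, add_zero, he, Finset.sum_pair hab]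

theorem free_of_three {G : Type*} [AddCommGroup G] [DecidableEq G] {h : ℕ} {A : Finset G}
    (hc : A.card = h + 3) (hA : ∀ a ∈ A, ∀ b ∈ A, ∀ c ∈ A, a ≠ b → b ≠ c → a ≠ c →
      a + b + c ≠ ∑ x ∈ A, x) :
    WeaklyZeroSumFree h A := by
  intro B hB hBc h0
  have h1 := Finset.card_sdiff_add_card_eq_card hB
  obtain ⟨a, b, c, hab, hac, hbc, he⟩ := Finset.card_eq_three.mp (by omega : (A \ B).card = 3)
  have hm : ∀ z ∈ ({a, b, c} : Finset G), z ∈ A := by
    intro z hz
    rw [← he, Finset.mem_sdiff] at hz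
    exact hz.1
  apply hA a (hm a (by simp)) b (hm b (by simp)) c (hm c (by simp)) hab hbc hac
  rw [← Finset.sum_sdiff hB, h0, add_zero, he, Finset.sum_insert (by simp [hab, hac]),
    Finset.sum_pair hbc, add_assoc]

theorem bad3_of_free {G : Type*} [AddCommGroup G] [DecidableEq G] {h : ℕ} {A : Finset G}
    (hc : A.card = h + 3) (hA : WeaklyZeroSumFree h A) :
    Pool.Agent.Helper450.WZ.Bad3 A (∑ x ∈ A, x) := by
  intro a ha b hb c hcA hab hbc hac e
  have hsub : ({a, b, c} : Finset G) ⊆ A := by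
    intro z hz
    simp only [Finset.mem_insert, Finset.mem_singleton] at hz
    rcases hz with rfl | rfl | rfl <;> assumption
  have hcard : ({a, b, c} : Finset G).card = 3 := Finset.card_eq_three.mpr
    ⟨a, b, c, hab, hac, hbc, rfl⟩
  have h1 := Finset.card_sdiff_add_card_eq_card hsub
  apply hA (A \ {a, b, c}) Finset.sdiff_subset (by omega)
  have h2 := Finset.sum_sdiff hsub (f := fun x => x)
  have hs : ∑ x ∈ ({a, b, c} : Finset G), x = a + b + c := by
    rw [Finset.sum_insert (by simp [hab, hac]), Finset.sum_pair hbc, add_assoc]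
  rw [hs, e] at h2
  exact add_eq_right.mp h2

theorem bad4_of_free {G : Type*} [AddCommGroup G] [DecidableEq G] {h : ℕ} {A : Finset G}
    (hc : A.card = h + 4) (hA : WeaklyZeroSumFree h A) :
    Pool.Agent.Helper450.WZ.Bad4 A (∑ x ∈ A, x) := by
  intro a ha b hb c hcA d hd hab hac had hbc hbd hcd e
  have hsub : ({a, b, c, d} : Finset G) ⊆ A := by
    intro z hz
    simp only [Finset.mem_insert, Finset.mem_singleton] at hz
    rcases hz with rfl | rfl | rfl | rfl <;> assumption
  have hcard : ({a, b, c, d} : Finset G).card = 4 := by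
    rw [Finset.card_insert_of_notMem (by simp [hab, hac, had]),
      Finset.card_insert_of_notMem (by simp [hbc, hbd]), Finset.card_pair hcd]
  have h1 := Finset.card_sdiff_add_card_eq_card hsub
  apply hA (A \ {a, b, c, d}) Finset.sdiff_subset (by omega)
  have h2 := Finset.sum_sdiff hsub (f := fun x => x)
  have hs : ∑ x ∈ ({a, b, c, d} : Finset G), x = a + b + c + d := by
    rw [Finset.sum_insert (by simp [hab, hac, had]), Finset.sum_insert (by simp [hbc, hbd]),
      Finset.sum_pair hcd, add_assoc, add_assoc]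
  rw [hs, e] at h2
  exact add_eq_right.mp h2

theorem upper_small {k : ℕ} (hk : 0 < k) (hS : Exceptional k) {n : ℕ} (hn : n ∈ sizes k) :
    n ≤ 3 * k + 2 := by
  obtain ⟨A, rfl, hA⟩ := hn
  by_contra hcon
  push Not at hcon
  obtain ⟨B, hB, hBc⟩ := Finset.exists_subset_card_eq (by omega : 3 * k + 3 ≤ A.card)
  exact Pool.Agent.Helper450.WZ.three_sum hk hS B hBc (bad3_of_free hBc (hA.mono hB))

theorem upper_all {k : ℕ} (hk : 0 < k) {n : ℕ} (hn : n ∈ sizes k) : n ≤ 3 * k + 3 := by
  obtain ⟨A, rfl, hA⟩ := hn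
  by_contra hcon
  push Not at hcon
  have : NeZero k := ⟨by omega⟩
  obtain ⟨B, hB, hBc⟩ := Finset.exists_subset_card_eq (by omega : 3 * k + 4 ≤ A.card)
  exact Pool.Agent.Helper450.WZ.four_sum hk (Pool.Agent.Helper450.WZ.card_Gk k)
    (Pool.Agent.Helper450.WZ.exp_Gk k) (Pool.Agent.Helper450.WZ.pi_Gk k)
    (Pool.Agent.Helper450.WZ.two_tor_Gk k) hBc (bad4_of_free hBc (hA.mono hB))

theorem one_lower : 4 ∈ sizes 1 := by
  refine ⟨{(0, 0), (0, 1), (1, 0), (1, 1)}, by decide, ?_⟩
  intro B hB hBc h0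
  revert B
  decide

theorem cap5 : ∀ F0 F1 F2 : Finset (ZMod 3), F0.card + F1.card + F2.card = 5 →
    (F0 = univ ∨ F1 = univ ∨ F2 = univ) ∨ ∃ a ∈ F0, ∃ b ∈ F1, ∃ c ∈ F2, a + b + c = 0 := by
  decide +kernel

theorem one_upper_aux (m : ℕ) (hm : m = 3) (B : Finset (ZMod 3 × ZMod m)) (hB : B.card = 5)
    (hfree : WeaklyZeroSumFree m B) : False := by
  subst hm
  have hno : ∀ u ∈ B, ∀ v ∈ B, ∀ w ∈ B, u ≠ v → v ≠ w → u ≠ w → u + v + w ≠ 0 := by
    intro u hu v hv w hw huv hvw huw e
    apply hfree {u, v, w}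
    · intro z hz
      simp only [Finset.mem_insert, Finset.mem_singleton] at hz
      rcases hz with rfl | rfl | rfl <;> assumption
    · exact Finset.card_eq_three.mpr ⟨u, v, w, huv, huw, hvw, rfl⟩
    · rw [Finset.sum_insert (by simp [huv, huw]), Finset.sum_pair hvw, ← add_assoc]
      exact e
  let F : ZMod 3 → Finset (ZMod 3) := fun i => univ.filter fun y => (i, y) ∈ B
  have hF : ∀ i y, y ∈ F i ↔ (i, y) ∈ B := by
    intro i y
    simp [F]
  have hcard : ∀ i, (B.filter fun u => u.1 = i).card = (F i).card := by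
    intro i
    have : B.filter (fun u => u.1 = i) = (F i).image fun y => (i, y) := by
      ext ⟨a, y⟩
      rw [Finset.mem_filter, Finset.mem_image]
      constructor
      · rintro ⟨h1, h2⟩
        have h2' : a = i := h2
        subst h2'
        exact ⟨y, (hF a y).mpr h1, rfl⟩
      · rintro ⟨z, hz, h⟩
        rw [← h]
        exact ⟨(hF i z).mp hz, rfl⟩
    rw [this, Finset.card_image_of_injective]
    intro y z h
    exact congrArg Prod.snd h
  have hsum : (F 0).card + (F 1).card + (F 2).card = 5 := by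
    rw [← hB, Finset.card_eq_sum_card_fiberwise (s := B) (t := (univ : Finset (ZMod 3)))
      (f := Prod.fst) (fun _ _ => Finset.mem_univ _)]
    have : (univ : Finset (ZMod 3)) = {0, 1, 2} := by decide
    rw [this, Finset.sum_insert (by decide), Finset.sum_insert (by decide),
      Finset.sum_singleton, ← hcard, ← hcard, ← hcard, add_assoc]
  have hline : ∀ i, F i ≠ univ := by
    intro i hi
    have h0 : (i, (0 : ZMod 3)) ∈ B := (hF _ _).mp (by rw [hi]; exact Finset.mem_univ _)
    have h1 : (i, (1 : ZMod 3)) ∈ B := (hF _ _).mp (by rw [hi]; exact Finset.mem_univ _)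
    have h2 : (i, (2 : ZMod 3)) ∈ B := (hF _ _).mp (by rw [hi]; exact Finset.mem_univ _)
    refine hno _ h0 _ h1 _ h2 ?_ ?_ ?_ ?_
    · intro h
      have h2 : (0 : ZMod 3) = 1 := congrArg Prod.snd h
      exact absurd h2 (by decide)
    · intro h
      have h2 : (1 : ZMod 3) = 2 := congrArg Prod.snd h
      exact absurd h2 (by decide)
    · intro h
      have h2 : (0 : ZMod 3) = 2 := congrArg Prod.snd h
      exact absurd h2 (by decide)
    · apply Prod.ext
      · have : ∀ a : ZMod 3, a + a + a = 0 := by decide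
        exact this i
      · exact (by decide : (0 : ZMod 3) + 1 + 2 = 0)
  rcases cap5 (F 0) (F 1) (F 2) hsum with (h | h | h) | ⟨a, ha, b, hb, c, hc, h⟩
  · exact hline _ h
  · exact hline _ h
  · exact hline _ h
  · refine hno _ ((hF _ _).mp ha) _ ((hF _ _).mp hb) _ ((hF _ _).mp hc) ?_ ?_ ?_ ?_
    · intro h'
      have h2 : (0 : ZMod 3) = 1 := congrArg Prod.fst h'
      exact absurd h2 (by decide)
    · intro h'
      have h2 : (1 : ZMod 3) = 2 := congrArg Prod.fst h'
      exact absurd h2 (by decide)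
    · intro h'
      have h2 : (0 : ZMod 3) = 2 := congrArg Prod.fst h'
      exact absurd h2 (by decide)
    · apply Prod.ext
      · exact (by decide : (0 : ZMod 3) + 1 + 2 = 0)
      · exact h

theorem one_upper {n : ℕ} (hn : n ∈ sizes 1) : n ≤ 4 := by
  obtain ⟨A, rfl, hA⟩ := hn
  by_contra hcon
  push Not at hcon
  obtain ⟨B, hB, hBc⟩ := Finset.exists_subset_card_eq (by omega : 5 ≤ A.card)
  exact one_upper_aux (3 * 1) (by norm_num) B hBc (hA.mono hB)

/-- **The exact value.** For `k = 1` it is `4`; for `k ≥ 2` it is `3k + 2` if `k` is exceptional,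
and `3k + 3` otherwise. -/
theorem result :
    IsGreatest (sizes 1) 4 ∧
    ∀ k : ℕ, 2 ≤ k →
      (Exceptional k → IsGreatest (sizes k) (3 * k + 2)) ∧
      (¬ Exceptional k → IsGreatest (sizes k) (3 * k + 3)) := by
  refine ⟨⟨one_lower, fun n hn => one_upper hn⟩, fun k hk => ⟨fun hS => ⟨?_, fun n hn =>
    upper_small (by omega) hS hn⟩, fun hS => ⟨?_, fun n hn => upper_all (by omega) hn⟩⟩⟩
  · obtain ⟨A, hc, hA⟩ := Pool.Agent.Helper450.WZJ5.constr0 k hk
    exact ⟨A, hc, free_of_two hc hA⟩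
  · have key : ∃ A : Finset (ZMod 3 × ZMod (3 * k)), A.card = 3 * k + 3 ∧
        ∀ a ∈ A, ∀ b ∈ A, ∀ c ∈ A, a ≠ b → b ≠ c → a ≠ c → a + b + c ≠ ∑ x ∈ A, x := by
      unfold Exceptional at hS
      push Not at hS
      obtain ⟨h8, h2, h4, hp, h1⟩ := hS
      rcases Pool.Agent.Helper450.WZJ6.classify k hk h8 h2 h4 (fun p hp' => hp p hp')
        (by push Not; exact h1) with h | h | h
      · obtain ⟨N, k', e1, e2, e3, e4⟩ := h
        exact Pool.Agent.Helper450.WZJ2.constr1 k N k' e1 e2 e3 e4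
      · obtain ⟨M, e1, e2, e3⟩ := h
        exact Pool.Agent.Helper450.WZJ3.constr2 k M e1 e2 e3
      · exact Pool.Agent.Helper450.WZJ4.constr3 k h.1 h.2
    obtain ⟨A, hc, hA⟩ := key
    exact ⟨A, hc, free_of_three hc hA⟩

end Pool.Agent.Results.MP_e67b39_co.ExactValue
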